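import Pool.Agent.H37.TPC.Cryer

/-!
# Reduction of total positivity of the `r`-th order Eulerian triangle to initial minors
-/

set_option autoImplicit false

namespace Pool.Agent.H37.TPC

open Matrix

/-- the defining relations of the `r`-th order Eulerian triangle -/
structure IsE (r : ℕ) (E : ℕ → ℕ → ℤ) : Prop where
  h00 : E 0 0 = 1
  h0 : ∀ k : ℕ, E 0 (k + 1) = 0
  hc : ∀ n : ℕ, E (n + 1) 0 = E n 0
  hs : ∀ n k : ℕ, E (n + 1) (k + 1) =
    ((k : ℤ) + 2) * E n (k + 1) + ((r : ℤ) * (n : ℤ) - (k : ℤ)) * E n k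

namespace IsE

variable {r : ℕ} {E : ℕ → ℕ → ℤ}

theorem one_eq (h : IsE r E) (k : ℕ) : E 1 k = E 0 k := by
  rcases k with _ | k
  · exact h.hc 0
  · rw [h.hs, h.h0]
    rcases k with _ | k
    · simp
    · rw [h.h0]; simp

theorem tri (h : IsE r E) : ∀ n k : ℕ, n < k → E (n + 1) k = 0 := by
  intro n
  induction n with
  | zero =>
    intro k hk
    obtain ⟨k', rfl⟩ := Nat.exists_eq_succ_of_ne_zero (by omega : k ≠ 0)
    rw [zero_add, h.one_eq]
    exact h.h0 k'
  | succ n ih =>
    intro k hk
    obtain ⟨k', rfl⟩ := Nat.exists_eq_succ_of_ne_zero (by omega : k ≠ 0)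
    show E (n + 1 + 1) (k' + 1) = 0
    rw [h.hs, ih (k' + 1) (by omega), ih k' (by omega)]
    ring

end IsE

/-- the real array with rows `1, 2, …` -/
noncomputable def shE (E : ℕ → ℕ → ℤ) (n k : ℕ) : ℝ := (E (n + 1) k : ℝ)

/-- all minors of the `r`-th order Eulerian triangle are nonnegative as soon as the initial minors
of its rows `1, 2, …` are positive -/
theorem red {r : ℕ} {E : ℕ → ℕ → ℤ} (h : IsE r E) (hini : ∀ K n, 0 < ini (shE E) K n) :
    ∀ m : ℕ, ∀ f g : Fin m → ℕ, StrictMono f → StrictMono g →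
      0 ≤ Matrix.det (Matrix.of fun i j => E (f i) (g j)) := by
  intro m f g hf hg
  rcases m with _ | m
  · simp
  -- rows at least one
  have hrow : ∀ x k, E (max x 1) k = E x k := by
    intro x k
    rcases x with _ | x
    · simpa using h.one_eq k
    · rw [max_eq_left (by omega)]
  have hmat : (Matrix.of fun i j : Fin (m + 1) => E (f i) (g j))
      = Matrix.of fun i j : Fin (m + 1) => E (max (f i) 1) (g j) := by
    ext i j
    simp only [Matrix.of_apply]
    rw [hrow]
  by_cases hst : ∀ i j : Fin (m + 1), i < j → max (f i) 1 < max (f j) 1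
  · have key : 0 ≤ mnr (shE E) (fun i : Fin (m + 1) => max (f i) 1 - 1) g := by
      apply cryer (shE E) _ hini _ _ _ hg
      · intro n k hnk
        unfold shE
        rw [h.tri n k hnk]
        simp
      · intro i j hij
        have h1 := hst i j hij
        have h2 : 1 ≤ max (f i) 1 := le_max_right _ _
        show max (f i) 1 - 1 < max (f j) 1 - 1
        omega
    have hcast : mnr (shE E) (fun i : Fin (m + 1) => max (f i) 1 - 1) g
        = ((Matrix.det (Matrix.of fun i j : Fin (m + 1) => E (max (f i) 1) (g j)) : ℤ) : ℝ) := by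
      unfold mnr
      have h3 := RingHom.map_det (Int.castRingHom ℝ)
        (Matrix.of fun i j : Fin (m + 1) => E (max (f i) 1) (g j))
      have h4 : (Int.castRingHom ℝ) (Matrix.det (Matrix.of fun i j : Fin (m + 1) =>
          E (max (f i) 1) (g j))) = ((Matrix.det (Matrix.of fun i j : Fin (m + 1) =>
          E (max (f i) 1) (g j)) : ℤ) : ℝ) := rfl
      rw [← h4, h3]
      congr 1
      ext i j
      have h2 : max (f i) 1 - 1 + 1 = max (f i) 1 := Nat.sub_add_cancel (le_max_right _ _)
      simp only [Matrix.of_apply, RingHom.mapMatrix_apply, Matrix.map_apply, shE, h2]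
      rfl
    rw [hmat]
    rw [hcast] at key
    exact_mod_cast key
  · push Not at hst
    obtain ⟨i, j, hij, hle⟩ := hst
    have h1 := hf hij
    have h2 : max (f i) 1 = max (f j) 1 :=
      le_antisymm (max_le_max_right 1 h1.le) hle
    rw [hmat]
    apply le_of_eq
    symm
    apply Matrix.det_zero_of_row_eq (ne_of_lt hij)
    ext k
    simp only [Matrix.of_apply, h2]

end Pool.Agent.H37.TPC
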