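import Pool.Agent.H37.TPC.Red
import Pool.Agent.H73.TP.Two

/-!
# Reduction of the total positivity of the `r`-th order Eulerian triangles to a statement on
products of linear forms
-/

set_option autoImplicit false

open Polynomial Pool.Agent.H73.TP

namespace Pool.Agent.H37.TPC

/-- the rows generated from `u` with `n` zeros: weights `r (n+1), r (n+2), …` -/
noncomputable def chS (r n : ℕ) (u : ℝ[X]) : ℕ → ℝ[X]
  | 0 => u
  | a + 1 => opA ((r : ℝ) * (n + 1 + a)) (chS r n u a)

/-- the initial minor of the rows generated from `u` -/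
noncomputable def DS (r n K : ℕ) (u : ℝ[X]) : ℝ :=
  (Matrix.of fun i j : Fin K => (chS r n u i).coeff j).det

theorem chS_rowP (r n a : ℕ) : chS r n (rowP r n) a = rowP r (n + a) := by
  induction a with
  | zero => rfl
  | succ a ih =>
    rw [chS, ih, ← add_assoc, rowP]
    congr 1
    push_cast
    ring

theorem IsE.coeff_rowP {r : ℕ} {E : ℕ → ℕ → ℤ} (h : IsE r E) :
    ∀ n k, ((E (n + 1) k : ℤ) : ℝ) = (rowP r n).coeff k := by
  intro n
  induction n with
  | zero =>
    intro k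
    rcases k with _ | k
    · rw [h.hc, h.h00]; simp [rowP]
    · rw [h.hs, h.h0]
      rcases k with _ | k
      · simp [rowP, coeff_one]
      · rw [h.h0]; simp [rowP, coeff_one]
  | succ n ih =>
    intro k
    rcases k with _ | k
    · rw [h.hc, ih, rowP, opA_coeff_zero]
    · rw [h.hs, rowP, opA_coeff_succ, ← ih, ← ih]
      push_cast; ring

theorem ini_eq {r : ℕ} {E : ℕ → ℕ → ℤ} (h : IsE r E) (K n : ℕ) :
    ini (shE E) K n = DS r n K (rowP r n) := by
  unfold ini DS shE
  congr 1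
  ext i j
  simp only [Matrix.of_apply, chS_rowP, ← h.coeff_rowP]

/-- the conclusion of `S09103` for one `r`, from positivity of the initial minors of the rows -/
theorem redP (r : ℕ) (H : ∀ n K : ℕ, 0 < DS r n K (rowP r n)) :
      ∀ E : ℕ → ℕ → ℤ,
        E 0 0 = 1 →
        (∀ k : ℕ, E 0 (k + 1) = 0) →
        (∀ n : ℕ, E (n + 1) 0 = E n 0) →
        (∀ n k : ℕ, E (n + 1) (k + 1) =
            ((k : ℤ) + 2) * E n (k + 1) + ((r : ℤ) * (n : ℤ) - (k : ℤ)) * E n k) →
        ∀ m : ℕ, ∀ f g : Fin m → ℕ, StrictMono f → StrictMono g →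
          0 ≤ Matrix.det (Matrix.of fun i j => E (f i) (g j)) := by
  intro E h00 h0 hc hs
  have hE : IsE r E := ⟨h00, h0, hc, hs⟩
  exact red hE fun K n => by rw [ini_eq hE]; exact H n K

/-- `S09103` from the positivity of `DS r n K` on products of `n` forms `1 + y X`, `y > 0` -/
theorem redS (H : ∀ r : ℕ, 1 ≤ r → ∀ n K : ℕ, ∀ y : Fin n → ℝ, (∀ i, 0 < y i) →
      0 < DS r n K (pr y Finset.univ)) :
    ∀ r : ℕ, 1 ≤ r →
      ∀ E : ℕ → ℕ → ℤ,
        E 0 0 = 1 →
        (∀ k : ℕ, E 0 (k + 1) = 0) →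
        (∀ n : ℕ, E (n + 1) 0 = E n 0) →
        (∀ n k : ℕ, E (n + 1) (k + 1) =
            ((k : ℤ) + 2) * E n (k + 1) + ((r : ℤ) * (n : ℤ) - (k : ℤ)) * E n k) →
        ∀ m : ℕ, ∀ f g : Fin m → ℕ, StrictMono f → StrictMono g →
          0 ≤ Matrix.det (Matrix.of fun i j => E (f i) (g j)) := by
  intro r hr
  apply redP r
  intro n K
  obtain ⟨y, hy, hyp⟩ := rowP_prod r hr n
  rw [hyp]
  exact H r hr n K y hy

end Pool.Agent.H37.TPC
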